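import Pool.Agent.N495.TS.Stm

/-!
# The density of the zeros of a polynomial modulo `q ^ T`
-/

set_option autoImplicit false

open Polynomial Finset

namespace Pool.Agent.N478.TS

lemma key {q : ℤ} (hq : Prime q) : ∀ (m T : ℕ) (a b : ℤ), q ^ T ∣ a * b → ¬ q ^ (m + 1) ∣ a →
    q ^ (T - m) ∣ b := by
  intro m
  induction m with
  | zero =>
    intro T a b h1 h2
    rw [zero_add, pow_one] at h2
    exact hq.pow_dvd_of_dvd_mul_left T h2 h1
  | succ m ih =>
    intro T a b h1 h2
    by_cases h3 : q ∣ a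
    · obtain ⟨a', rfl⟩ := h3
      have h4 : ¬ q ^ (m + 1) ∣ a' := by
        intro h5
        apply h2
        rw [pow_succ' q (m + 1)]
        exact mul_dvd_mul_left q h5
      rcases T with _ | T
      · simp
      · have h5 : q ^ T ∣ a' * b := by
          rw [pow_succ', mul_assoc] at h1
          exact (mul_dvd_mul_iff_left hq.ne_zero).1 h1
        have := ih T a' b h5 h4
        rwa [show T + 1 - (m + 1) = T - m by omega]
    · exact (pow_dvd_pow q (Nat.sub_le _ _)).trans (hq.pow_dvd_of_dvd_mul_left T h3 h1)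

/-- The zeros of a polynomial in one variable modulo `q ^ T`. -/
lemma zeros {q : ℤ} (hq : Prime q) (m u : ℕ) : ∀ (d : ℕ) (f : ℤ[X]) (T : ℕ), f.natDegree ≤ d →
    ¬ q ^ (u + 1) ∣ f.coeff d → d * m + u < T →
    ∃ R : Finset ℤ, R.card ≤ d ∧ ∀ x : ℤ, q ^ T ∣ f.eval x → ∃ r ∈ R, q ^ (m + 1) ∣ x - r := by
  intro d
  induction d with
  | zero =>
    intro f T h1 h2 h3
    refine ⟨∅, by simp, fun x hx => ?_⟩
    exfalso
    apply h2
    rw [eq_C_of_natDegree_le_zero h1, eval_C] at hx
    exact (pow_dvd_pow q (by omega)).trans hx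
  | succ d ih =>
    intro f T h1 h2 h3
    by_cases h0 : ∃ x0, q ^ T ∣ f.eval x0
    · obtain ⟨x0, hx0⟩ := h0
      have hroot : (f - C (f.eval x0)).IsRoot x0 := by simp
      obtain ⟨g, hg⟩ := dvd_iff_isRoot.2 hroot
      have hf : f = C (f.eval x0) + (X - C x0) * g := by
        rw [← hg]
        ring
      have hgd : g.natDegree ≤ d := by
        by_cases hg0 : g = 0
        · rw [hg0]
          simp
        · have e1 : ((X - C x0) * g).natDegree = 1 + g.natDegree := by
            rw [(monic_X_sub_C x0).natDegree_mul' hg0, natDegree_X_sub_C]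
          have e2 : (f - C (f.eval x0)).natDegree ≤ d + 1 := by
            rw [natDegree_sub_C]
            exact h1
          rw [hg, e1] at e2
          omega
      have hc : f.coeff (d + 1) = g.coeff d := by
        have e1 : f.coeff (d + 1) = (f - C (f.eval x0)).coeff (d + 1) := by
          rw [coeff_sub, coeff_C_succ, sub_zero]
        rw [e1, hg, sub_mul, coeff_sub, coeff_X_mul, coeff_C_mul,
          coeff_eq_zero_of_natDegree_lt (by omega : g.natDegree < d + 1), mul_zero, sub_zero]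
      have h3' : d * m + u < T - m := by
        have : (d + 1) * m = d * m + m := by ring
        omega
      obtain ⟨R, hR, hR'⟩ := ih g (T - m) hgd (hc ▸ h2) h3'
      refine ⟨insert x0 R, (Finset.card_insert_le _ _).trans (by omega), fun x hx => ?_⟩
      by_cases hxx : q ^ (m + 1) ∣ x - x0
      · exact ⟨x0, Finset.mem_insert_self _ _, hxx⟩
      · have e1 : (x - x0) * g.eval x = f.eval x - f.eval x0 := by
          have := congrArg (eval x) hg
          simp only [eval_sub, eval_C, eval_mul, eval_X] at this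
          exact this.symm
        have e2 : q ^ T ∣ (x - x0) * g.eval x := by
          rw [e1]
          exact dvd_sub hx hx0
        obtain ⟨r, hr, hr'⟩ := hR' x (key hq m T _ _ e2 hxx)
        exact ⟨r, Finset.mem_insert_of_mem hr, hr'⟩
    · exact ⟨∅, by simp, fun x hx => (h0 ⟨x, hx⟩).elim⟩

variable {ι : Type} [Fintype ι]

omit [Fintype ι] in
lemma mono_coeff (a b : ι → ℤ) (m : ι → ℕ) (s : Finset ι) :
    (∏ i ∈ s, (C (a i) + C (b i) * X : ℤ[X]) ^ m i).natDegree ≤ ∑ i ∈ s, m i ∧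
    (∏ i ∈ s, (C (a i) + C (b i) * X : ℤ[X]) ^ m i).coeff (∑ i ∈ s, m i) =
      ∏ i ∈ s, b i ^ m i := by
  classical
  induction s using Finset.induction_on with
  | empty => simp
  | insert j s hj ih =>
    have h1 : (C (a j) + C (b j) * X : ℤ[X]).natDegree ≤ 1 := by
      refine (natDegree_add_le _ _).trans ?_
      rw [natDegree_C, max_le_iff]
      refine ⟨by norm_num, ?_⟩
      have := natDegree_C_mul_X_pow_le (b j) 1
      rwa [pow_one] at this
    have h2 : ((C (a j) + C (b j) * X : ℤ[X]) ^ m j).natDegree ≤ m j := by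
      refine natDegree_pow_le.trans ?_
      calc m j * (C (a j) + C (b j) * X : ℤ[X]).natDegree ≤ m j * 1 := Nat.mul_le_mul_left _ h1
        _ = m j := mul_one _
    have h3 : ((C (a j) + C (b j) * X : ℤ[X]) ^ m j).coeff (m j) = b j ^ m j := by
      have := coeff_pow_of_natDegree_le (m := m j) h1
      rw [mul_one] at this
      rw [this, coeff_add, coeff_C_succ, coeff_C_mul_X, if_pos rfl, zero_add]
    rw [Finset.prod_insert hj, Finset.sum_insert hj, Finset.prod_insert hj]
    refine ⟨natDegree_mul_le_of_le h2 ih.1, ?_⟩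
    rw [coeff_mul_add_eq_of_natDegree_le h2 ih.1, h3, ih.2]

/-- The restriction to a line. -/
noncomputable def ln (V : MvPolynomial ι ℤ) (a b : ι → ℤ) : ℤ[X] :=
  MvPolynomial.aeval (fun i => (C (a i) + C (b i) * X : ℤ[X])) V

lemma ln_eq (V : MvPolynomial ι ℤ) (a b : ι → ℤ) :
    ln V a b = ∑ m ∈ V.support, C (V.coeff m) * ∏ i, (C (a i) + C (b i) * X : ℤ[X]) ^ m i := by
  unfold ln
  rw [MvPolynomial.aeval_def, MvPolynomial.eval₂_eq']
  rfl

lemma deg_le {V : MvPolynomial ι ℤ} {m : ι →₀ ℕ} (hm : m ∈ V.support) :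
    ∑ i, m i ≤ V.totalDegree := by
  have := MvPolynomial.le_totalDegree hm
  rwa [Finsupp.sum_fintype _ _ (fun _ => rfl)] at this

lemma ln_coeff (V : MvPolynomial ι ℤ) (a b : ι → ℤ) :
    (ln V a b).natDegree ≤ V.totalDegree ∧ (ln V a b).coeff V.totalDegree =
      MvPolynomial.eval b (MvPolynomial.homogeneousComponent V.totalDegree V) := by
  constructor
  · rw [ln_eq]
    refine natDegree_sum_le_of_forall_le _ _ fun m hm => ?_
    refine (natDegree_C_mul_le _ _).trans ?_
    exact (mono_coeff a b m univ).1.trans (deg_le hm)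
  · rw [ln_eq, finsetSum_coeff, MvPolynomial.homogeneousComponent_apply, map_sum,
      Finset.sum_filter]
    refine Finset.sum_congr rfl fun m hm => ?_
    obtain ⟨h1, h2⟩ := mono_coeff a b m univ
    have h3 : m.degree = ∑ i, m i := by
      rw [Finsupp.degree_eq_sum]
    rw [coeff_C_mul]
    by_cases h4 : m.degree = V.totalDegree
    · rw [if_pos h4, ← h4, h3, h2, MvPolynomial.eval_monomial]
      congr 1
      rw [Finsupp.prod_fintype _ _ (fun _ => pow_zero _)]
    · rw [if_neg h4]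
      have h5 : ∑ i, m i < V.totalDegree := lt_of_le_of_ne (deg_le hm) (h3 ▸ h4)
      rw [coeff_eq_zero_of_natDegree_lt (lt_of_le_of_lt h1 h5), mul_zero]

lemma exists_b {V : MvPolynomial ι ℤ} (hV : V ≠ 0) :
    ∃ b : ι → ℤ, MvPolynomial.eval b (MvPolynomial.homogeneousComponent V.totalDegree V) ≠ 0 := by
  by_contra h
  push Not at h
  have h1 : MvPolynomial.homogeneousComponent V.totalDegree V = 0 :=
    MvPolynomial.funext fun x => by rw [h x, map_zero]
  obtain ⟨m, hm, hm'⟩ := Finset.exists_mem_eq_sup V.support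
    (MvPolynomial.support_nonempty.2 hV) (fun s => s.sum fun _ e => e)
  have h2 : m.degree = V.totalDegree := by
    rw [MvPolynomial.totalDegree, hm', Finsupp.degree_eq_sum, Finsupp.sum_fintype _ _ (fun _ => rfl)]
  have h3 := congrArg (MvPolynomial.coeff m) h1
  rw [MvPolynomial.coeff_homogeneousComponent, if_pos h2, MvPolynomial.coeff_zero] at h3
  exact MvPolynomial.mem_support_iff.1 hm h3

omit [Fintype ι] in
lemma ln_cast (V : MvPolynomial ι ℤ) (a b : ι → ℤ) (x : ℤ) (Q : ℕ) :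
    (((ln V a b).eval x : ℤ) : ZMod Q) =
      MvPolynomial.aeval (fun i => ((a i : ZMod Q) + (b i : ZMod Q) * (x : ZMod Q))) V := by
  unfold ln
  induction V using MvPolynomial.induction_on with
  | C c => simp
  | add p r hp hr => 
    rw [map_add, map_add, eval_add, Int.cast_add, hp, hr]
  | mul_X p i hp =>
    rw [map_mul, map_mul, eval_mul, Int.cast_mul, hp, MvPolynomial.aeval_X, MvPolynomial.aeval_X]
    simp

lemma count {q m T : ℕ} (hq : 0 < q) (hm : m ≤ T) (R : Finset ℤ) (S : Finset (ZMod (q ^ T)))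
    (h : ∀ s ∈ S, ∃ r ∈ R, (q : ℤ) ^ m ∣ (s.val : ℤ) - r) :
    S.card ≤ R.card * q ^ (T - m) := by
  classical
  have : NeZero (q ^ T) := ⟨(pow_pos hq T).ne'⟩
  have h' : ∀ s : ZMod (q ^ T), ∃ r, s ∈ S → r ∈ R ∧ (q : ℤ) ^ m ∣ (s.val : ℤ) - r := by
    intro s
    by_cases hs : s ∈ S
    · obtain ⟨r, h1, h2⟩ := h s hs
      exact ⟨r, fun _ => ⟨h1, h2⟩⟩
    · exact ⟨0, fun h0 => (hs h0).elim⟩
  choose r hr using h'
  have hc : (R ×ˢ Finset.range (q ^ (T - m))).card = R.card * q ^ (T - m) := by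
    rw [Finset.card_product, Finset.card_range]
  rw [← hc]
  refine Finset.card_le_card_of_injOn (fun s => (r s, s.val / q ^ m)) ?_ ?_
  · intro s hs
    rw [Finset.mem_coe] at hs
    rw [Finset.mem_coe, Finset.mem_product]
    refine ⟨(hr s hs).1, ?_⟩
    rw [Finset.mem_range]
    apply Nat.div_lt_of_lt_mul
    rw [← pow_add, Nat.add_sub_cancel' hm]
    exact ZMod.val_lt s
  · intro s hs s' hs' hss
    rw [Finset.mem_coe] at hs hs'
    simp only [Prod.mk.injEq] at hss
    obtain ⟨h1, h2⟩ := hss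
    have h3 := (hr s hs).2
    have h4 := (hr s' hs').2
    rw [← h1] at h4
    have h5 : (q : ℤ) ^ m ∣ (s'.val : ℤ) - (s.val : ℤ) := by
      have := dvd_sub h4 h3
      rwa [sub_sub_sub_cancel_right] at this
    have h6 : s.val ≡ s'.val [MOD q ^ m] := by
      rw [Nat.modEq_iff_dvd]
      exact_mod_cast h5
    apply ZMod.val_injective
    rw [← Nat.div_add_mod s.val (q ^ m), ← Nat.div_add_mod s'.val (q ^ m), h2, h6]

theorem t_DENS : Pool.Agent.N495.TS.S_DENS := by
  classical
  intro ι _ _ V hV q hq ε hε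
  obtain ⟨b, hb⟩ := exists_b hV
  have hq2 := hq.two_le
  -- the constants
  obtain ⟨u, hu⟩ : ∃ u : ℕ, ¬ (q : ℤ) ^ (u + 1) ∣
      MvPolynomial.eval b (MvPolynomial.homogeneousComponent V.totalDegree V) := by
    refine ⟨(MvPolynomial.eval b
      (MvPolynomial.homogeneousComponent V.totalDegree V)).natAbs, fun h => ?_⟩
    generalize MvPolynomial.eval b (MvPolynomial.homogeneousComponent V.totalDegree V) = e at *
    have h1 := Int.natAbs_dvd_natAbs.2 h
    rw [Int.natAbs_pow, Int.natAbs_natCast] at h1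
    have h2 := Nat.le_of_dvd (Int.natAbs_pos.2 hb) h1
    have h3 : e.natAbs + 1 < q ^ (e.natAbs + 1) := Nat.lt_pow_self hq2
    omega
  set d := V.totalDegree with hd
  obtain ⟨m, hm⟩ : ∃ m : ℕ, (d : ℝ) ≤ ε * ((q ^ (m + 1) : ℕ) : ℝ) := by
    obtain ⟨m, hm⟩ := exists_nat_ge ((d : ℝ) / ε)
    refine ⟨m, ?_⟩
    rw [div_le_iff₀ hε] at hm
    have h3 : m ≤ q ^ (m + 1) := (Nat.lt_pow_self hq2).le.trans
      (Nat.pow_le_pow_right (by omega) (Nat.le_succ m))
    have h4 : (m : ℝ) ≤ ((q ^ (m + 1) : ℕ) : ℝ) := by exact_mod_cast h3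
    nlinarith
  refine ⟨d * m + u + 1 + m, ?_⟩
  obtain ⟨T, hT⟩ : ∃ T, T = d * m + u + 1 + m := ⟨_, rfl⟩
  rw [← hT]
  have : NeZero (q ^ T) := ⟨(pow_pos hq.pos T).ne'⟩
  have hqi : Prime (q : ℤ) := Nat.prime_iff_prime_int.1 hq
  -- the zeros on a line
  have hline : ∀ a : ι → ZMod (q ^ T), (Finset.univ.filter fun s : ZMod (q ^ T) =>
      MvPolynomial.aeval (fun i => a i + (b i : ZMod (q ^ T)) * s) V = 0).card ≤
      d * q ^ (T - (m + 1)) := by
    intro a
    obtain ⟨h1, h2⟩ := ln_coeff V (fun i => ((a i).val : ℤ)) b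
    obtain ⟨R, hR, hR'⟩ := zeros hqi m u d (ln V (fun i => ((a i).val : ℤ)) b) T h1
      (by rw [h2]; exact hu) (by omega)
    refine (count hq.pos (by omega : m + 1 ≤ T) R _ fun s hs => ?_).trans
      (Nat.mul_le_mul_right _ hR)
    rw [Finset.mem_filter] at hs
    apply hR' (s.val : ℤ)
    have h3 := ln_cast V (fun i => ((a i).val : ℤ)) b (s.val : ℤ) (q ^ T)
    simp only [Int.cast_natCast, ZMod.natCast_zmod_val] at h3
    rw [hs.2] at h3
    have h4 := (ZMod.intCast_zmod_eq_zero_iff_dvd _ _).1 h3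
    push_cast at h4
    exact h4
  -- double counting
  have hdc : q ^ T * (Finset.univ.filter fun a : ι → ZMod (q ^ T) =>
      MvPolynomial.aeval a V = 0).card = ∑ a : ι → ZMod (q ^ T),
      (Finset.univ.filter fun s : ZMod (q ^ T) =>
      MvPolynomial.aeval (fun i => a i + (b i : ZMod (q ^ T)) * s) V = 0).card := by
    simp_rw [Finset.card_filter]
    rw [Finset.sum_comm]
    have h1 : ∀ s : ZMod (q ^ T), (∑ a : ι → ZMod (q ^ T),
        if MvPolynomial.aeval (fun i => a i + (b i : ZMod (q ^ T)) * s) V = 0 then 1 else 0) =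
        ∑ a : ι → ZMod (q ^ T), if MvPolynomial.aeval a V = 0 then 1 else 0 := by
      intro s
      exact Fintype.sum_equiv (Equiv.addRight fun i => (b i : ZMod (q ^ T)) * s) _ _ fun a => rfl
    rw [Finset.sum_congr rfl fun s _ => h1 s, Finset.sum_const, Finset.card_univ, ZMod.card,
      smul_eq_mul]
  have hle : q ^ T * (Finset.univ.filter fun a : ι → ZMod (q ^ T) =>
      MvPolynomial.aeval a V = 0).card ≤ (q ^ T) ^ Fintype.card ι * (d * q ^ (T - (m + 1))) := by
    rw [hdc]
    refine (Finset.sum_le_sum fun a _ => hline a).trans ?_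
    rw [Finset.sum_const, Finset.card_univ, smul_eq_mul, Fintype.card_fun, ZMod.card]
  have hset : {ρ : ι → ZMod (q ^ T) | MvPolynomial.aeval ρ V = 0} =
      ↑(Finset.univ.filter fun a : ι → ZMod (q ^ T) => MvPolynomial.aeval a V = 0) := by
    ext ρ
    simp
  rw [hset, Set.ncard_coe_finset]
  generalize (Finset.univ.filter fun a : ι → ZMod (q ^ T) =>
      MvPolynomial.aeval a V = 0).card = N at hle
  have hQ : q ^ T = q ^ (m + 1) * q ^ (T - (m + 1)) := by
    rw [← pow_add]
    congr 1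
    omega
  have hp : 0 < q ^ (T - (m + 1)) := pow_pos hq.pos _
  have hle2 : q ^ (m + 1) * N ≤ (q ^ T) ^ Fintype.card ι * d := by
    refine Nat.le_of_mul_le_mul_right (?_ : q ^ (m + 1) * N * q ^ (T - (m + 1)) ≤
      (q ^ T) ^ Fintype.card ι * d * q ^ (T - (m + 1))) hp
    calc q ^ (m + 1) * N * q ^ (T - (m + 1)) = q ^ T * N := by
          rw [hQ]
          ring
      _ ≤ _ := hle
      _ = _ := by ring
  have hle3 : ((q ^ (m + 1) : ℕ) : ℝ) * N ≤ ((q ^ T : ℕ) : ℝ) ^ Fintype.card ι * d := by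
    exact_mod_cast hle2
  have hp2 : (0 : ℝ) < ((q ^ (m + 1) : ℕ) : ℝ) := by exact_mod_cast pow_pos hq.pos _
  have hQ0 : (0 : ℝ) ≤ ((q ^ T : ℕ) : ℝ) ^ Fintype.card ι := by positivity
  refine le_of_mul_le_mul_left ?_ hp2
  calc ((q ^ (m + 1) : ℕ) : ℝ) * N ≤ ((q ^ T : ℕ) : ℝ) ^ Fintype.card ι * d := hle3
    _ ≤ ((q ^ T : ℕ) : ℝ) ^ Fintype.card ι * (ε * ((q ^ (m + 1) : ℕ) : ℝ)) :=
      mul_le_mul_of_nonneg_left hm hQ0
    _ = _ := by ring

end Pool.Agent.N478.TS
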